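import Mathlib

/-!
# Dynamical Brownian last passage percolation
-/

namespace Q292.DynLPP

open MeasureTheory ProbabilityTheory
open scoped NNReal

/-- The last passage time from `(0,0)` to `(n,n)` in the environment `b = (b_i)_{i ≥ 0}`. The
numbers `z 0 = 0, z 1, …, z (n + 1) = n` play the role of `z_{-1}, z_0, …, z_n`. -/
noncomputable def T (n : ℕ) (b : ℕ → ℝ≥0 → ℝ) : ℝ :=
  sSup {s | ∃ z : ℕ → ℝ≥0, Monotone z ∧ z 0 = 0 ∧ z (n + 1) = n ∧
    s = ∑ i ∈ Finset.range (n + 1), (b i (z (i + 1)) - b i (z i))}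

/-- `B i t x = B_i^t(x)` is the dynamical Brownian environment: a centred Gaussian field with
`E[B_i^s(x) B_j^t(y)] = 1{i = j} exp(-|s - t|) min(x, y)`, such that for every `i` and `t` the line
`x ↦ B_i^t(x)` is almost surely continuous. -/
structure IsDynamicalBrownian {Ω : Type*} [MeasurableSpace Ω] (P : Measure Ω)
    (B : ℕ → ℝ≥0 → ℝ≥0 → Ω → ℝ) : Prop where
  gaussian : IsGaussianProcess (fun p : ℕ × ℝ≥0 × ℝ≥0 => B p.1 p.2.1 p.2.2) P
  centred : ∀ i t x, ∫ ω, B i t x ω ∂P = 0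
  cov : ∀ i j s t x y, ∫ ω, B i s x ω * B j t y ω ∂P =
    if i = j then Real.exp (-|(s : ℝ) - (t : ℝ)|) * min (x : ℝ) (y : ℝ) else 0
  continuous : ∀ i t, ∀ᵐ ω ∂P, Continuous fun x => B i t x ω

end Q292.DynLPP
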