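import Mathlib
import Pool.Agent.H320R2.LD.MGF

/-!
# Two correlated copies of a Gaussian vector
-/

namespace Q292.DynLPP

open MeasureTheory ProbabilityTheory Pool.Agent.H320R2.LD
open scoped ENNReal NNReal

/-- A finite centred Gaussian family with identity covariance has the standard Gaussian law. -/
theorem law_std {Ω : Type*} [MeasurableSpace Ω] {P : Measure Ω} {K : Type} [Fintype K]
    [DecidableEq K] {Y : K → Ω → ℝ} (hY : IsGaussianProcess Y P) (h0 : ∀ k, ∫ ω, Y k ω ∂P = 0)
    (hc : ∀ k l, ∫ ω, Y k ω * Y l ω ∂P = if k = l then 1 else 0) :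
    P.map (fun ω k => Y k ω) = gam K := by
  have : IsProbabilityMeasure P := hY.isProbabilityMeasure
  have hG : HasGaussianLaw (fun ω => (Y · ω)) P := by
    have h1 := hY.hasGaussianLaw Finset.univ
    let L : (↥(Finset.univ : Finset K) → ℝ) →L[ℝ] (K → ℝ) :=
      ContinuousLinearMap.pi fun k => ContinuousLinearMap.proj (⟨k, Finset.mem_univ k⟩ :
        ↥(Finset.univ : Finset K))
    exact h1.map L
  have hcov : ∀ k l, cov[Y k, Y l; P] = if k = l then 1 else 0 := by
    intro k l
    rw [covariance_eq_sub (hY.hasGaussianLaw_eval k).memLp_two (hY.hasGaussianLaw_eval l).memLp_two,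
      h0, h0, mul_zero, sub_zero]
    exact hc k l
  have hind : iIndepFun Y P := hG.iIndepFun_of_covariance_eq_zero fun i j hij => by
    rw [hcov, if_neg hij]
  rw [(iIndepFun_iff_map_fun_eq_pi_map (fun k => hY.aemeasurable k)).1 hind, gam]
  congr 1
  funext k
  rw [(hY.hasGaussianLaw_eval k).map_eq_gaussianReal, h0 k, ← covariance_self (hY.aemeasurable k),
    hcov, if_pos rfl, Real.toNNReal_one]

theorem map_neg_gam (V : Type) [Fintype V] : (gam V).map (fun x => -x) = gam V := by
  have h1 : MeasurePreserving (fun x : ℝ => -x) (gaussianReal 0 1) (gaussianReal 0 1) := by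
    refine ⟨measurable_neg, ?_⟩
    have := gaussianReal_map_neg (μ := 0) (v := 1)
    simpa using this
  exact (measurePreserving_pi (fun _ : V => gaussianReal 0 1) (fun _ : V => gaussianReal 0 1)
    (fun _ => h1)).map_eq

theorem sq_le_exp {I : ℝ≥0∞} {c : ℝ} (h : I * I ≤ ENNReal.ofReal (Real.exp (2 * c))) :
    I ≤ ENNReal.ofReal (Real.exp c) := by
  by_contra hcon
  push Not at hcon
  have h1 : ENNReal.ofReal (Real.exp c) * ENNReal.ofReal (Real.exp c) < I * I :=
    ENNReal.mul_lt_mul hcon hcon
  rw [← ENNReal.ofReal_mul (Real.exp_pos _).le, ← Real.exp_add, ← two_mul] at h1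
  exact absurd h (not_le.2 h1)

theorem nrm_neg {V : Type} [Fintype V] (x : V → ℝ) : nrm (-x) = nrm x := by
  unfold nrm nsq
  simp

theorem nrm_smul {V : Type} [Fintype V] (c : ℝ) (x : V → ℝ) : nrm (c • x) = |c| * nrm x := by
  unfold nrm nsq
  have : ∑ v, (c • x) v ^ 2 = c ^ 2 * ∑ v, x v ^ 2 := by
    rw [Finset.mul_sum]
    exact Finset.sum_congr rfl fun v _ => by simp only [Pi.smul_apply, smul_eq_mul]; ring
  rw [this, Real.sqrt_mul (sq_nonneg c), Real.sqrt_sq_eq_abs]

/-- Exponential moment of the increment between `a g + b h` and `a g - b h`. -/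
theorem two_point {V : Type} [Fintype V] {f : (V → ℝ) → ℝ} {L : ℝ} (hL : 0 ≤ L) (hf : Lip L f)
    (a b lam : ℝ) :
    ∫⁻ g, ∫⁻ h, ENNReal.ofReal (Real.exp (lam * (f (a • g - b • h) - f (a • g + b • h))))
      ∂(gam V) ∂(gam V) ≤ ENNReal.ofReal (Real.exp (2 * lam ^ 2 * b ^ 2 * L ^ 2)) := by
  have hfc : Continuous f := MGF.lip_continuous hL hf
  have key : ∀ g : V → ℝ,
      ∫⁻ h, ENNReal.ofReal (Real.exp (lam * (f (a • g - b • h) - f (a • g + b • h)))) ∂(gam V) ≤
        ENNReal.ofReal (Real.exp (2 * lam ^ 2 * b ^ 2 * L ^ 2)) := by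
    intro g
    set φ : (V → ℝ) → ℝ := fun h => lam * (f (a • g - b • h) - f (a • g + b • h)) with hφ
    have hφc : Continuous φ := by
      have h1 : Continuous fun h : V → ℝ => a • g - b • h := by fun_prop
      have h2 : Continuous fun h : V → ℝ => a • g + b • h := by fun_prop
      exact continuous_const.mul ((hfc.comp h1).sub (hfc.comp h2))
    have hodd : ∀ h, φ (-h) = -φ h := by
      intro h
      simp only [hφ, smul_neg, sub_neg_eq_add, ← sub_eq_add_neg]
      ring
    have hinv : ∫⁻ h, ENNReal.ofReal (Real.exp (-φ h)) ∂(gam V) =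
        ∫⁻ h, ENNReal.ofReal (Real.exp (φ h)) ∂(gam V) := by
      conv_rhs => rw [← map_neg_gam V]
      rw [lintegral_map (by fun_prop) measurable_neg]
      exact lintegral_congr fun h => by rw [hodd]
    have hlip : ∀ x y, φ y - φ x ≤ (|lam| * (2 * |b| * L)) * nrm (x - y) := by
      intro x y
      have e1 := hf (a • g - b • x) (a • g - b • y)
      have e2 := hf (a • g + b • x) (a • g + b • y)
      have e3 : (a • g - b • x) - (a • g - b • y) = -(b • (x - y)) := by
        rw [smul_sub]; abel
      have e4 : (a • g + b • x) - (a • g + b • y) = b • (x - y) := by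
        rw [smul_sub]; abel
      rw [e3, nrm_neg, nrm_smul] at e1
      rw [e4, nrm_smul] at e2
      have e5 : φ y - φ x = lam * ((f (a • g - b • y) - f (a • g - b • x)) +
          (f (a • g + b • x) - f (a • g + b • y))) := by
        simp only [hφ]; ring
      rw [e5]
      refine (le_abs_self _).trans ?_
      rw [abs_mul, mul_assoc]
      refine mul_le_mul_of_nonneg_left ?_ (abs_nonneg _)
      refine (abs_add_le _ _).trans ?_
      rw [abs_sub_comm (f (a • g - b • y))]
      linarith
    have h1 := MGF.main_gen φ hφc.measurable _ hlip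
    rw [hinv] at h1
    refine sq_le_exp (h1.trans (le_of_eq ?_))
    congr 2
    rw [mul_pow, mul_pow, mul_pow, sq_abs, sq_abs]
    ring
  refine (lintegral_mono key).trans ?_
  rw [lintegral_const]
  simp

end Q292.DynLPP
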