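import Mathlib
import Pool.Agent.Q292.DynLPP.Defs
import Pool.Agent.Q292.DynLPP.Gauss

/-!
# Grid approximation of the last passage time
-/

namespace Q292.DynLPP

open MeasureTheory ProbabilityTheory Pool.Agent.H320R2.LD Filter Topology
open scoped ENNReal NNReal

/-- grid chains -/
def Chain (n M : ℕ) : Set (ℕ → ℕ) := {a | Monotone a ∧ a 0 = 0 ∧ a (n + 1) = M}

/-- index set of the increments -/
abbrev V (n M : ℕ) := Fin (n + 1) × Fin M

open Classical in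
/-- the linear functional of a chain -/
noncomputable def ell (n M : ℕ) (a : ℕ → ℕ) (c : ℝ) (x : V n M → ℝ) : ℝ :=
  ∑ v : V n M, if a v.1 ≤ v.2 ∧ (v.2 : ℕ) < a (v.1 + 1) then c * x v else 0

theorem ell_sub (n M : ℕ) (a : ℕ → ℕ) (c : ℝ) (x y : V n M → ℝ) :
    ell n M a c x - ell n M a c y = ell n M a c (x - y) := by
  unfold ell
  rw [← Finset.sum_sub_distrib]
  refine Finset.sum_congr rfl fun v _ => ?_
  split_ifs
  · simp only [Pi.sub_apply]; ring
  · ring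

theorem ell_le (n M : ℕ) {a : ℕ → ℕ} (ha : a ∈ Chain n M) (c : ℝ) (x : V n M → ℝ) :
    |ell n M a c x| ≤ Real.sqrt (c ^ 2 * M) * nrm x := by
  classical
  have h1 : ell n M a c x = ∑ v : V n M,
      (if a v.1 ≤ v.2 ∧ (v.2 : ℕ) < a (v.1 + 1) then c else 0) * x v := by
    unfold ell
    refine Finset.sum_congr rfl fun v _ => ?_
    split_ifs <;> ring
  have h2 : ∑ v : V n M, (if a v.1 ≤ v.2 ∧ (v.2 : ℕ) < a (v.1 + 1) then c else 0) ^ 2 ≤
      c ^ 2 * M := by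
    have h3 : ∀ v : V n M, (if a v.1 ≤ v.2 ∧ (v.2 : ℕ) < a (v.1 + 1) then c else 0) ^ 2 =
        if a v.1 ≤ v.2 ∧ (v.2 : ℕ) < a (v.1 + 1) then c ^ 2 else 0 := by
      intro v
      split_ifs <;> ring
    simp_rw [h3]
    rw [← Finset.sum_filter, Finset.sum_const, nsmul_eq_mul, mul_comm]
    refine mul_le_mul_of_nonneg_left ?_ (sq_nonneg c)
    have h4 : (Finset.univ.filter fun v : V n M => a v.1 ≤ v.2 ∧ (v.2 : ℕ) < a (v.1 + 1)).card ≤
        (Finset.univ : Finset (Fin M)).card := by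
      refine Finset.card_le_card_of_injOn (fun v => v.2) (fun _ _ => Finset.mem_univ _) ?_
      intro v hv w hw hvw
      have hv' := (Finset.mem_filter.1 (Finset.mem_coe.1 hv)).2
      have hw' := (Finset.mem_filter.1 (Finset.mem_coe.1 hw)).2
      have hvw' : v.2 = w.2 := hvw
      have h5 : v.1 = w.1 := by
        rcases lt_trichotomy v.1 w.1 with h | h | h
        · exfalso
          have := ha.1 (show (v.1 : ℕ) + 1 ≤ w.1 from h)
          rw [hvw'] at hv'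
          omega
        · exact h
        · exfalso
          have := ha.1 (show (w.1 : ℕ) + 1 ≤ v.1 from h)
          rw [hvw'] at hv'
          omega
      exact Prod.ext h5 hvw'
    rw [Finset.card_univ, Fintype.card_fin] at h4
    exact_mod_cast h4
  rw [h1, nrm, nsq, ← Real.sqrt_mul (by positivity)]
  apply Real.abs_le_sqrt
  refine (Finset.sum_mul_sq_le_sq_mul_sq _ _ _).trans ?_
  exact mul_le_mul_of_nonneg_right h2 (Finset.sum_nonneg fun _ _ => sq_nonneg _)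

/-- the last passage time of grid increments -/
noncomputable def F (n M : ℕ) (c : ℝ) (x : V n M → ℝ) : ℝ :=
  sSup {s | ∃ a ∈ Chain n M, s = ell n M a c x}

theorem F_bdd (n M : ℕ) (c : ℝ) (x : V n M → ℝ) :
    BddAbove {s | ∃ a ∈ Chain n M, s = ell n M a c x} := by
  refine ⟨Real.sqrt (c ^ 2 * M) * nrm x, ?_⟩
  rintro s ⟨a, ha, rfl⟩
  exact (le_abs_self _).trans (ell_le n M ha c x)

theorem chain_ne (n M : ℕ) : (Chain n M).Nonempty := by
  classical
  refine ⟨fun i => if i = 0 then 0 else M, ?_, by simp, by simp⟩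
  intro i j hij
  dsimp only
  split_ifs with h1 h2
  · exact le_rfl
  · exact Nat.zero_le _
  · omega
  · exact le_rfl

theorem F_ne (n M : ℕ) (c : ℝ) (x : V n M → ℝ) :
    {s | ∃ a ∈ Chain n M, s = ell n M a c x}.Nonempty := by
  obtain ⟨a, ha⟩ := chain_ne n M
  exact ⟨_, a, ha, rfl⟩

theorem F_lip (n M : ℕ) (c : ℝ) : Lip (Real.sqrt (c ^ 2 * M)) (F n M c) := by
  have key : ∀ x y : V n M → ℝ, F n M c x ≤ F n M c y + Real.sqrt (c ^ 2 * M) * nrm (x - y) := by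
    intro x y
    refine csSup_le (F_ne n M c x) ?_
    rintro s ⟨a, ha, rfl⟩
    have h1 := ell_sub n M a c x y
    have h2 := (le_abs_self _).trans (ell_le n M ha c (x - y))
    have h3 : ell n M a c y ≤ F n M c y := le_csSup (F_bdd n M c y) ⟨a, ha, rfl⟩
    linarith
  intro x y
  have h1 := key x y
  have h2 := key y x
  have h3 : nrm (y - x) = nrm (x - y) := by rw [← nrm_neg (x - y), neg_sub]
  rw [h3] at h2
  rw [abs_le]
  constructor <;> linarith

/-- grid last passage time of an environment -/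
noncomputable def Tm (n m : ℕ) (b : ℕ → ℝ≥0 → ℝ) : ℝ :=
  sSup {s | ∃ a ∈ Chain n (n * m),
    s = ∑ i ∈ Finset.range (n + 1), (b i (a (i + 1) / m) - b i (a i / m))}

/-- normalised increments, scaled by `c⁻¹` -/
noncomputable def xi (n m : ℕ) (c : ℝ) (b : ℕ → ℝ≥0 → ℝ) (v : V n (n * m)) : ℝ :=
  c⁻¹ * (b v.1 (((v.2 : ℕ) + 1 : ℕ) / m) - b v.1 (((v.2 : ℕ) : ℝ≥0) / m))

theorem ell_xi {n m : ℕ} {c : ℝ} (hc : c ≠ 0) (b : ℕ → ℝ≥0 → ℝ) {a : ℕ → ℕ}
    (ha : a ∈ Chain n (n * m)) :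
    ell n (n * m) a c (xi n m c b) =
      ∑ i ∈ Finset.range (n + 1), (b i (a (i + 1) / m) - b i (a i / m)) := by
  classical
  have h1 : ∀ i j : ℕ, c * (c⁻¹ * (b i (((j + 1 : ℕ) : ℝ≥0) / m) - b i ((j : ℝ≥0) / m))) =
      b i (((j + 1 : ℕ) : ℝ≥0) / m) - b i ((j : ℝ≥0) / m) := by
    intro i j
    rw [← mul_assoc, mul_inv_cancel₀ hc, one_mul]
  unfold ell xi
  simp only [h1]
  rw [Fintype.sum_prod_type]
  simp only
  rw [Finset.sum_range (fun i => b i (a (i + 1) / m) - b i (a i / m))]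
  refine Finset.sum_congr rfl fun i _ => ?_
  rw [Fin.sum_univ_eq_sum_range (fun j => if a i ≤ j ∧ j < a (i + 1) then
    b i (((j + 1 : ℕ) : ℝ≥0) / m) - b i ((j : ℝ≥0) / m) else 0) (n * m), ← Finset.sum_filter]
  have h2 : (Finset.range (n * m)).filter (fun j => a i ≤ j ∧ j < a (i + 1)) =
      Finset.Ico (a i) (a (i + 1)) := by
    ext j
    simp only [Finset.mem_filter, Finset.mem_range, Finset.mem_Ico]
    constructor
    · exact fun h => h.2
    · refine fun h => ⟨?_, h⟩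
      have h3 : a (i + 1) ≤ a (n + 1) := ha.1 (by omega)
      rw [ha.2.2] at h3
      omega
  rw [h2, Finset.sum_Ico_sub (fun j : ℕ => b i ((j : ℝ≥0) / m)) (ha.1 (Nat.le_succ _))]

theorem Tm_eq {n m : ℕ} {c : ℝ} (hc : c ≠ 0) (b : ℕ → ℝ≥0 → ℝ) :
    Tm n m b = F n (n * m) c (xi n m c b) := by
  unfold Tm F
  congr 1
  ext s
  constructor
  · rintro ⟨a, ha, rfl⟩
    exact ⟨a, ha, (ell_xi hc b ha).symm⟩
  · rintro ⟨a, ha, rfl⟩
    exact ⟨a, ha, ell_xi hc b ha⟩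

theorem T_bdd (n : ℕ) {b : ℕ → ℝ≥0 → ℝ} (hb : ∀ i, Continuous (b i)) :
    BddAbove {s | ∃ z : ℕ → ℝ≥0, Monotone z ∧ z 0 = 0 ∧ z (n + 1) = n ∧
      s = ∑ i ∈ Finset.range (n + 1), (b i (z (i + 1)) - b i (z i))} := by
  have h1 : ∀ i, ∃ C : ℝ, ∀ x : ℝ≥0, x ≤ n → |b i x| ≤ C := by
    intro i
    obtain ⟨C, hC⟩ := (isCompact_Icc (a := (0 : ℝ≥0)) (b := n)).exists_bound_of_continuousOn
      (hb i).continuousOn
    exact ⟨C, fun x hx => hC x ⟨zero_le, hx⟩⟩
  choose C hC using h1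
  refine ⟨∑ i ∈ Finset.range (n + 1), (C i + C i), ?_⟩
  rintro s ⟨z, hz, hz0, hzn, rfl⟩
  refine Finset.sum_le_sum fun i hi => ?_
  rw [Finset.mem_range] at hi
  have h2 := hC i (z (i + 1)) (by rw [← hzn]; exact hz (by omega))
  have h3 := hC i (z i) (by rw [← hzn]; exact hz (by omega))
  have h4 := (abs_le.1 h2).2
  have h5 := (abs_le.1 h3).1
  linarith

theorem Tm_tendsto (n : ℕ) {b : ℕ → ℝ≥0 → ℝ} (hb : ∀ i, Continuous (b i)) :
    Tendsto (fun m => Tm n m b) atTop (𝓝 (T n b)) := by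
  have hbdd := T_bdd n hb
  -- grid chains give admissible sequences
  have hsub : ∀ m : ℕ, 1 ≤ m → ∀ s, (∃ a ∈ Chain n (n * m),
      s = ∑ i ∈ Finset.range (n + 1), (b i (a (i + 1) / m) - b i (a i / m))) →
      ∃ z : ℕ → ℝ≥0, Monotone z ∧ z 0 = 0 ∧ z (n + 1) = n ∧
        s = ∑ i ∈ Finset.range (n + 1), (b i (z (i + 1)) - b i (z i)) := by
    rintro m hm s ⟨a, ha, rfl⟩
    have hm0 : (0 : ℝ≥0) < m := by exact_mod_cast hm
    refine ⟨fun i => a i / m, ?_, ?_, ?_, rfl⟩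
    · intro i j hij
      have := ha.1 hij
      dsimp only
      gcongr
    · simp [ha.2.1]
    · change ((a (n + 1) : ℕ) : ℝ≥0) / m = n
      rw [ha.2.2]
      push_cast
      field_simp
  have hle : ∀ m : ℕ, 1 ≤ m → Tm n m b ≤ T n b := by
    intro m hm
    unfold Tm T
    refine csSup_le_csSup hbdd ?_ (fun s hs => hsub m hm s hs)
    obtain ⟨a, ha⟩ := chain_ne n (n * m)
    exact ⟨_, a, ha, rfl⟩
  rw [Metric.tendsto_atTop]
  intro ε hε
  have hne : {s | ∃ z : ℕ → ℝ≥0, Monotone z ∧ z 0 = 0 ∧ z (n + 1) = n ∧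
      s = ∑ i ∈ Finset.range (n + 1), (b i (z (i + 1)) - b i (z i))}.Nonempty := by
    obtain ⟨a, ha⟩ := chain_ne n (n * 1)
    obtain ⟨z, hz⟩ := hsub 1 le_rfl _ ⟨a, ha, rfl⟩
    exact ⟨_, z, hz⟩
  obtain ⟨s, ⟨z, hz, hz0, hzn, rfl⟩, hs⟩ := exists_lt_of_lt_csSup hne
    (show T n b - ε / 2 < sSup _ by
      change T n b - ε / 2 < T n b
      linarith)
  -- discretise `z`
  have hconv : ∀ i, Tendsto (fun m : ℕ => ((⌊z i * m⌋₊ : ℕ) : ℝ≥0) / m) atTop (𝓝 (z i)) := by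
    intro i
    rw [← NNReal.tendsto_coe]
    have h1 := (tendsto_nat_floor_mul_div_atTop (R := ℝ) (a := (z i : ℝ)) (z i).2).comp
      (tendsto_natCast_atTop_atTop (R := ℝ))
    refine h1.congr fun m => ?_
    simp only [Function.comp_apply, NNReal.coe_div, NNReal.coe_natCast]
    rw [← NNReal.coe_natCast m, ← NNReal.coe_mul]
    rfl
  have hsum : Tendsto (fun m : ℕ => ∑ i ∈ Finset.range (n + 1),
      (b i (((⌊z (i + 1) * m⌋₊ : ℕ) : ℝ≥0) / m) - b i (((⌊z i * m⌋₊ : ℕ) : ℝ≥0) / m))) atTop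
      (𝓝 (∑ i ∈ Finset.range (n + 1), (b i (z (i + 1)) - b i (z i)))) := by
    refine tendsto_finsetSum _ fun i _ => ?_
    exact (((hb i).tendsto _).comp (hconv (i + 1))).sub (((hb i).tendsto _).comp (hconv i))
  obtain ⟨m0, hm0⟩ := (Metric.tendsto_atTop.1 hsum) (ε / 2) (by positivity)
  refine ⟨max m0 1, fun m hm => ?_⟩
  have h1 := hm0 m (le_trans (le_max_left _ _) hm)
  have h2 := hle m (le_trans (le_max_right _ _) hm)
  have h3 : ∑ i ∈ Finset.range (n + 1),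
      (b i (((⌊z (i + 1) * m⌋₊ : ℕ) : ℝ≥0) / m) - b i (((⌊z i * m⌋₊ : ℕ) : ℝ≥0) / m)) ≤
      Tm n m b := by
    refine le_csSup ?_ ⟨fun i => ⌊z i * m⌋₊, ⟨?_, ?_, ?_⟩, rfl⟩
    · obtain ⟨C, hC⟩ := hbdd
      exact ⟨C, fun s hs => hC (hsub m (le_trans (le_max_right _ _) hm) s hs)⟩
    · intro i j hij
      exact Nat.floor_le_floor (mul_le_mul_of_nonneg_right (hz hij) zero_le)
    · simp [hz0]
    · change ⌊z (n + 1) * m⌋₊ = n * m
      rw [hzn, ← Nat.cast_mul, Nat.floor_natCast]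
  rw [Real.dist_eq] at h1 ⊢
  have h4 := (abs_lt.1 h1).1
  rw [abs_lt]
  constructor
  · change T n b - ε / 2 < _ at hs
    linarith
  · linarith

end Q292.DynLPP
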