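import Mathlib
import Pool.Agent.Q292.DynLPP.Defs
import Pool.Agent.Q292.DynLPP.Gauss
import Pool.Agent.Q292.DynLPP.Grid

/-!
# Gaussian tails for dynamical Brownian last passage percolation
-/

namespace Q292.DynLPP

open MeasureTheory ProbabilityTheory Pool.Agent.H320R2.LD Filter Topology
open scoped ENNReal NNReal

variable {Ω : Type*} [MeasurableSpace Ω] {P : Measure Ω}

theorem gp_comb {S T : Type*} {X : T → Ω → ℝ} (hX : IsGaussianProcess X P) (α β : S → ℝ)
    (p q : S → T) : IsGaussianProcess (fun s ω => α s * X (p s) ω + β s * X (q s) ω) P := by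
  classical
  exact hX.of_isGaussianProcess fun s => ⟨{p s, q s},
    { toFun := fun x => α s * x ⟨p s, by simp⟩ + β s * x ⟨q s, by simp⟩
      map_add' := fun x y => by simp only [Pi.add_apply]; ring
      map_smul' := fun c x => by simp only [Pi.smul_apply, smul_eq_mul, RingHom.id_apply]; ring },
    fun ω => by simp⟩

theorem gp_int {T : Type*} {X : T → Ω → ℝ} (hX : IsGaussianProcess X P) (s t : T) :
    Integrable (fun ω => X s ω * X t ω) P :=
  (hX.hasGaussianLaw_eval s).memLp_two.integrable_mul (hX.hasGaussianLaw_eval t).memLp_two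

theorem int_comb {T : Type*} {X : T → Ω → ℝ} (hX : IsGaussianProcess X P) (p q r s : T)
    (α β γ δ : ℝ) :
    ∫ ω, (α * X p ω + β * X q ω) * (γ * X r ω + δ * X s ω) ∂P =
      α * γ * (∫ ω, X p ω * X r ω ∂P) + α * δ * (∫ ω, X p ω * X s ω ∂P) +
        β * γ * (∫ ω, X q ω * X r ω ∂P) + β * δ * (∫ ω, X q ω * X s ω ∂P) := by
  have e : ∀ ω, (α * X p ω + β * X q ω) * (γ * X r ω + δ * X s ω) =
      ((α * γ * (X p ω * X r ω) + α * δ * (X p ω * X s ω)) + β * γ * (X q ω * X r ω)) +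
        β * δ * (X q ω * X s ω) := fun ω => by ring
  simp_rw [e]
  have h1 := (gp_int hX p r).const_mul (α * γ)
  have h2 := (gp_int hX p s).const_mul (α * δ)
  have h3 := (gp_int hX q r).const_mul (β * γ)
  have h4 := (gp_int hX q s).const_mul (β * δ)
  have h12 : Integrable (fun ω => α * γ * (X p ω * X r ω) + α * δ * (X p ω * X s ω)) P := h1.add h2
  have h123 : Integrable (fun ω => α * γ * (X p ω * X r ω) + α * δ * (X p ω * X s ω) +
      β * γ * (X q ω * X r ω)) P := h12.add h3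
  rw [integral_add h123 h4, integral_add h12 h3, integral_add h1 h2,
    integral_const_mul, integral_const_mul, integral_const_mul, integral_const_mul]

theorem min_grid (j k m : ℕ) (hm : 1 ≤ m) :
    min (((j + 1 : ℕ) : ℝ) / m) (((k + 1 : ℕ) : ℝ) / m) - min (((j + 1 : ℕ) : ℝ) / m) ((k : ℝ) / m) -
      min ((j : ℝ) / m) (((k + 1 : ℕ) : ℝ) / m) + min ((j : ℝ) / m) ((k : ℝ) / m) =
      if j = k then 1 / (m : ℝ) else 0 := by
  have hm0 : (0 : ℝ) < m := by exact_mod_cast hm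
  rw [min_div_div_right hm0.le, min_div_div_right hm0.le, min_div_div_right hm0.le,
    min_div_div_right hm0.le]
  rcases lt_trichotomy j k with h | h | h
  · rw [if_neg h.ne]
    have h1 : ((j + 1 : ℕ) : ℝ) ≤ k := by exact_mod_cast h
    have h2 : (j : ℝ) ≤ k := by exact_mod_cast h.le
    rw [min_eq_left (by push_cast at h1 ⊢; linarith), min_eq_left h1,
      min_eq_left (by push_cast; linarith), min_eq_left h2]
    ring
  · subst h
    rw [if_pos rfl, min_self, min_self, min_eq_right (by push_cast; linarith),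
      min_eq_left (by push_cast; linarith)]
    push_cast
    ring
  · rw [if_neg h.ne']
    have h1 : ((k + 1 : ℕ) : ℝ) ≤ j := by exact_mod_cast h
    have h2 : (k : ℝ) ≤ j := by exact_mod_cast h.le
    rw [min_eq_right (by push_cast at h1 ⊢; linarith), min_eq_right (by push_cast; linarith),
      min_eq_right h1, min_eq_right h2]
    ring

variable {B : ℕ → ℝ≥0 → ℝ≥0 → Ω → ℝ}

/-- the increment process -/
noncomputable def Xi (n m : ℕ) (B : ℕ → ℝ≥0 → ℝ≥0 → Ω → ℝ) (p : V n (n * m) × ℝ≥0) (ω : Ω) : ℝ :=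
  (Real.sqrt (m : ℝ)) * B p.1.1 p.2 ((((p.1.2 : ℕ) + 1 : ℕ) : ℝ≥0) / m) ω +
    (-Real.sqrt (m : ℝ)) * B p.1.1 p.2 (((p.1.2 : ℕ) : ℝ≥0) / m) ω

theorem Xi_gauss (hB : IsDynamicalBrownian P B) (n m : ℕ) :
    IsGaussianProcess (Xi n m B) P :=
  gp_comb hB.gaussian (fun _ => Real.sqrt (m : ℝ)) (fun _ => -Real.sqrt (m : ℝ))
    (fun p : V n (n * m) × ℝ≥0 => ((p.1.1 : ℕ), p.2, (((p.1.2 : ℕ) + 1 : ℕ) : ℝ≥0) / m))
    (fun p : V n (n * m) × ℝ≥0 => ((p.1.1 : ℕ), p.2, ((p.1.2 : ℕ) : ℝ≥0) / m))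

theorem Xi_mean (hB : IsDynamicalBrownian P B) (n m : ℕ) (p : V n (n * m) × ℝ≥0) :
    ∫ ω, Xi n m B p ω ∂P = 0 := by
  unfold Xi
  have hi : ∀ (i : ℕ) (t x : ℝ≥0), Integrable (fun ω => B i t x ω) P := fun i t x =>
    (hB.gaussian.hasGaussianLaw_eval (i, t, x)).integrable
  rw [integral_add ((hi _ _ _).const_mul _) ((hi _ _ _).const_mul _), integral_const_mul,
    integral_const_mul, hB.centred, hB.centred]
  ring

theorem Xi_cov (hB : IsDynamicalBrownian P B) (n : ℕ) {m : ℕ} (hm : 1 ≤ m)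
    (p q : V n (n * m) × ℝ≥0) :
    ∫ ω, Xi n m B p ω * Xi n m B q ω ∂P =
      if p.1 = q.1 then Real.exp (-|(p.2 : ℝ) - (q.2 : ℝ)|) else 0 := by
  have hm0 : (0 : ℝ) < m := by exact_mod_cast hm
  have h := int_comb hB.gaussian ((p.1.1 : ℕ), p.2, (((p.1.2 : ℕ) + 1 : ℕ) : ℝ≥0) / m)
    ((p.1.1 : ℕ), p.2, ((p.1.2 : ℕ) : ℝ≥0) / m) ((q.1.1 : ℕ), q.2, (((q.1.2 : ℕ) + 1 : ℕ) : ℝ≥0) / m)
    ((q.1.1 : ℕ), q.2, ((q.1.2 : ℕ) : ℝ≥0) / m) (Real.sqrt (m : ℝ)) (-Real.sqrt (m : ℝ))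
    (Real.sqrt (m : ℝ)) (-Real.sqrt (m : ℝ))
  have h2 : ∫ ω, Xi n m B p ω * Xi n m B q ω ∂P = _ := h
  rw [h2]
  simp only [hB.cov]
  have hs : Real.sqrt (m : ℝ) * Real.sqrt (m : ℝ) = m := Real.mul_self_sqrt hm0.le
  have hg := min_grid p.1.2 q.1.2 m hm
  by_cases h1 : (p.1.1 : ℕ) = q.1.1
  · simp only [if_pos h1]
    simp only [NNReal.coe_div, NNReal.coe_natCast]
    by_cases h3 : (p.1.2 : ℕ) = q.1.2
    · have h4 : p.1 = q.1 := Prod.ext (Fin.ext h1) (Fin.ext h3)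
      rw [if_pos h4]
      rw [if_pos h3] at hg
      have h5 : (m : ℝ) * (1 / m) = 1 := by field_simp
      linear_combination (Real.exp (-|(p.2 : ℝ) - (q.2 : ℝ)|) * m) * hg +
        (Real.exp (-|(p.2 : ℝ) - (q.2 : ℝ)|) *
          (min (((p.1.2 : ℕ) + 1 : ℕ) / (m : ℝ)) ((((q.1.2 : ℕ) + 1 : ℕ) : ℝ) / m) -
            min ((((p.1.2 : ℕ) + 1 : ℕ) : ℝ) / m) (((q.1.2 : ℕ) : ℝ) / m) -
            min (((p.1.2 : ℕ) : ℝ) / m) ((((q.1.2 : ℕ) + 1 : ℕ) : ℝ) / m) +
            min (((p.1.2 : ℕ) : ℝ) / m) (((q.1.2 : ℕ) : ℝ) / m))) * hs +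
        Real.exp (-|(p.2 : ℝ) - (q.2 : ℝ)|) * h5
    · have h4 : p.1 ≠ q.1 := fun h => h3 (by rw [h])
      rw [if_neg h4]
      rw [if_neg h3] at hg
      linear_combination (Real.exp (-|(p.2 : ℝ) - (q.2 : ℝ)|) *
        (Real.sqrt (m : ℝ) * Real.sqrt (m : ℝ))) * hg
  · have h4 : p.1 ≠ q.1 := fun h => h1 (by rw [h])
    simp only [if_neg h1, if_neg h4]
    ring

/-- the decoupled family -/
noncomputable def W (n m : ℕ) (B : ℕ → ℝ≥0 → ℝ≥0 → Ω → ℝ) (t : ℝ≥0) (A C : ℝ)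
    (k : V n (n * m) ⊕ V n (n * m)) (ω : Ω) : ℝ :=
  Sum.elim (fun _ => (2 * A)⁻¹) (fun _ => (2 * C)⁻¹) k *
      Xi n m B (Sum.elim (fun v => (v, 0)) (fun v => (v, 0)) k) ω +
    Sum.elim (fun _ => (2 * A)⁻¹) (fun _ => -(2 * C)⁻¹) k *
      Xi n m B (Sum.elim (fun v => (v, t)) (fun v => (v, t)) k) ω

theorem W_gauss (hB : IsDynamicalBrownian P B) (n m : ℕ) (t : ℝ≥0) (A C : ℝ) :
    IsGaussianProcess (W n m B t A C) P :=
  gp_comb (Xi_gauss hB n m) _ _ _ _

theorem W_mean (hB : IsDynamicalBrownian P B) (n m : ℕ) (t : ℝ≥0) (A C : ℝ)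
    (k : V n (n * m) ⊕ V n (n * m)) : ∫ ω, W n m B t A C k ω ∂P = 0 := by
  unfold W
  have hi : ∀ p, Integrable (fun ω => Xi n m B p ω) P := fun p =>
    ((Xi_gauss hB n m).hasGaussianLaw_eval p).integrable
  rw [integral_add ((hi _).const_mul _) ((hi _).const_mul _), integral_const_mul,
    integral_const_mul, Xi_mean hB, Xi_mean hB]
  ring

theorem W_cov (hB : IsDynamicalBrownian P B) (n : ℕ) {m : ℕ} (hm : 1 ≤ m) (t : ℝ≥0) {A C : ℝ}
    (hA0 : 0 < A) (hC0 : 0 < C) (hA : A ^ 2 = (1 + Real.exp (-t)) / 2)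
    (hC : C ^ 2 = (1 - Real.exp (-t)) / 2) (k l : V n (n * m) ⊕ V n (n * m)) :
    ∫ ω, W n m B t A C k ω * W n m B t A C l ω ∂P = if k = l then 1 else 0 := by
  have h := int_comb (Xi_gauss hB n m) (Sum.elim (fun v => (v, 0)) (fun v => (v, 0)) k)
    (Sum.elim (fun v => (v, t)) (fun v => (v, t)) k) (Sum.elim (fun v => (v, 0)) (fun v => (v, 0)) l)
    (Sum.elim (fun v => (v, t)) (fun v => (v, t)) l)
    (Sum.elim (fun _ => (2 * A)⁻¹) (fun _ => (2 * C)⁻¹) k)
    (Sum.elim (fun _ => (2 * A)⁻¹) (fun _ => -(2 * C)⁻¹) k)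
    (Sum.elim (fun _ => (2 * A)⁻¹) (fun _ => (2 * C)⁻¹) l)
    (Sum.elim (fun _ => (2 * A)⁻¹) (fun _ => -(2 * C)⁻¹) l)
  have h2 : ∫ ω, W n m B t A C k ω * W n m B t A C l ω ∂P = _ := h
  rw [h2]
  simp only [Xi_cov hB n hm]
  have e0 : Real.exp (-|((0 : ℝ≥0) : ℝ) - ((0 : ℝ≥0) : ℝ)|) = 1 := by simp
  have e1 : Real.exp (-|((0 : ℝ≥0) : ℝ) - (t : ℝ)|) = Real.exp (-t) := by simp
  have e2 : Real.exp (-|(t : ℝ) - ((0 : ℝ≥0) : ℝ)|) = Real.exp (-t) := by simp
  have e3 : Real.exp (-|(t : ℝ) - (t : ℝ)|) = 1 := by simp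
  rcases k with v | v <;> rcases l with w | w <;>
    simp only [Sum.elim_inl, Sum.elim_inr, e0, e1, e2, e3, Sum.inl.injEq, Sum.inr.injEq,
      reduceCtorEq, if_false]
  · by_cases hvw : v = w
    · simp only [if_pos hvw]
      field_simp
      linarith
    · simp only [if_neg hvw]; ring
  · by_cases hvw : v = w
    · simp only [if_pos hvw]; ring
    · simp only [if_neg hvw]; ring
  · by_cases hvw : v = w
    · simp only [if_pos hvw]; ring
    · simp only [if_neg hvw]; ring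
  · by_cases hvw : v = w
    · simp only [if_pos hvw]
      field_simp
      linarith
    · simp only [if_neg hvw]; ring

/-- Exponential moments of the increment of the grid last passage time. -/
theorem mgf_inc (hB : IsDynamicalBrownian P B) (n : ℕ) {m : ℕ} (hm : 1 ≤ m) {t : ℝ≥0} (ht : 0 < t)
    (lam : ℝ) :
    ∫⁻ ω, ENNReal.ofReal (Real.exp (lam * (Tm n m (fun i x => B i t x ω) -
      Tm n m (fun i x => B i 0 x ω)))) ∂P ≤
        ENNReal.ofReal (Real.exp (lam ^ 2 * (1 - Real.exp (-t)) * n)) := by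
  classical
  have hm0 : (0 : ℝ) < m := by exact_mod_cast hm
  have ht0 : (0 : ℝ) < t := ht
  have hexp1 : Real.exp (-t) < 1 := by
    rw [Real.exp_lt_one_iff]
    linarith
  set A := Real.sqrt ((1 + Real.exp (-t)) / 2) with hAd
  set C := Real.sqrt ((1 - Real.exp (-t)) / 2) with hCd
  have hA0 : 0 < A := Real.sqrt_pos.2 (by positivity)
  have hC0 : 0 < C := Real.sqrt_pos.2 (by linarith)
  have hA : A ^ 2 = (1 + Real.exp (-t)) / 2 := Real.sq_sqrt (by positivity)
  have hC : C ^ 2 = (1 - Real.exp (-t)) / 2 := Real.sq_sqrt (by linarith)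
  have hcs : Real.sqrt (m : ℝ) ≠ 0 := (Real.sqrt_pos.2 hm0).ne'
  set c := (Real.sqrt (m : ℝ))⁻¹ with hc
  have hc0 : c ≠ 0 := inv_ne_zero hcs
  set f := F n (n * m) c with hf
  have hlip : Lip (Real.sqrt (c ^ 2 * (n * m : ℕ))) f := F_lip n (n * m) c
  have hfc : Continuous f := MGF.lip_continuous (Real.sqrt_nonneg _) hlip
  have hL2 : Real.sqrt (c ^ 2 * (n * m : ℕ)) ^ 2 = n := by
    rw [Real.sq_sqrt (by positivity), hc, inv_pow, Real.sq_sqrt hm0.le]
    push_cast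
    field_simp
  -- the two environments in terms of the decoupled family
  have hX : ∀ (s : ℝ≥0) (ω : Ω), Tm n m (fun i x => B i s x ω) = f (fun v => Xi n m B (v, s) ω) := by
    intro s ω
    rw [Tm_eq hc0, hf]
    congr 1
    funext v
    simp only [xi, Xi, hc, inv_inv]
    ring
  have h0 : ∀ ω, (fun v => Xi n m B (v, 0) ω) = A • (fun v => W n m B t A C (Sum.inl v) ω) +
      C • (fun v => W n m B t A C (Sum.inr v) ω) := by
    intro ω
    funext v
    simp only [Pi.add_apply, Pi.smul_apply, smul_eq_mul, W, Sum.elim_inl, Sum.elim_inr]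
    field_simp
    ring
  have h1 : ∀ ω, (fun v => Xi n m B (v, t) ω) = A • (fun v => W n m B t A C (Sum.inl v) ω) -
      C • (fun v => W n m B t A C (Sum.inr v) ω) := by
    intro ω
    funext v
    simp only [Pi.sub_apply, Pi.smul_apply, smul_eq_mul, W, Sum.elim_inl, Sum.elim_inr]
    field_simp
    ring
  let G : (V n (n * m) → ℝ) × (V n (n * m) → ℝ) → ℝ≥0∞ := fun p =>
    ENNReal.ofReal (Real.exp (lam * (f (A • p.1 - C • p.2) - f (A • p.1 + C • p.2))))
  have hGm : Measurable G := by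
    have e1 : Continuous fun p : (V n (n * m) → ℝ) × (V n (n * m) → ℝ) => A • p.1 - C • p.2 := by
      fun_prop
    have e2 : Continuous fun p : (V n (n * m) → ℝ) × (V n (n * m) → ℝ) => A • p.1 + C • p.2 := by
      fun_prop
    have e3 : Continuous fun p : (V n (n * m) → ℝ) × (V n (n * m) → ℝ) =>
        lam * (f (A • p.1 - C • p.2) - f (A • p.1 + C • p.2)) :=
      continuous_const.mul ((hfc.comp e1).sub (hfc.comp e2))
    exact (Real.measurable_exp.comp e3.measurable).ennreal_ofReal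
  have hmp := measurePreserving_sumPiEquivProdPi
    (fun _ : V n (n * m) ⊕ V n (n * m) => gaussianReal 0 1)
  have hWm : AEMeasurable (fun ω k => W n m B t A C k ω) P :=
    aemeasurable_pi_lambda _ fun k => (W_gauss hB n m t A C).aemeasurable k
  have hlaw := law_std (W_gauss hB n m t A C) (W_mean hB n m t A C)
    (W_cov hB n hm t hA0 hC0 hA hC)
  calc ∫⁻ ω, ENNReal.ofReal (Real.exp (lam * (Tm n m (fun i x => B i t x ω) -
          Tm n m (fun i x => B i 0 x ω)))) ∂P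
      = ∫⁻ ω, G (MeasurableEquiv.sumPiEquivProdPi (fun _ : V n (n * m) ⊕ V n (n * m) => ℝ)
          (fun k => W n m B t A C k ω)) ∂P := by
        refine lintegral_congr fun ω => ?_
        rw [hX, hX, h0, h1]
        rfl
    _ = ∫⁻ w, G (MeasurableEquiv.sumPiEquivProdPi (fun _ : V n (n * m) ⊕ V n (n * m) => ℝ) w)
          ∂(P.map (fun ω k => W n m B t A C k ω)) := by
        have hm2 : Measurable fun w => G (MeasurableEquiv.sumPiEquivProdPi
            (fun _ : V n (n * m) ⊕ V n (n * m) => ℝ) w) := hGm.comp (MeasurableEquiv.measurable _)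
        exact (lintegral_map' hm2.aemeasurable hWm).symm
    _ = ∫⁻ p, G p ∂((gam (V n (n * m))).prod (gam (V n (n * m)))) := by
        rw [hlaw]
        exact hmp.lintegral_comp hGm
    _ = ∫⁻ g, ∫⁻ h, G (g, h) ∂(gam (V n (n * m))) ∂(gam (V n (n * m))) :=
        lintegral_prod _ hGm.aemeasurable
    _ ≤ ENNReal.ofReal (Real.exp (2 * lam ^ 2 * C ^ 2 *
          Real.sqrt (c ^ 2 * (n * m : ℕ)) ^ 2)) :=
        two_point (Real.sqrt_nonneg _) hlip A C lam
    _ = _ := by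
        rw [hC, hL2]
        congr 2
        ring

theorem Tm_aemeas (hB : IsDynamicalBrownian P B) (n : ℕ) {m : ℕ} (hm : 1 ≤ m) (t : ℝ≥0) :
    AEMeasurable (fun ω => Tm n m (fun i x => B i t x ω)) P := by
  have hm0 : (0 : ℝ) < m := by exact_mod_cast hm
  have hcs : Real.sqrt (m : ℝ) ≠ 0 := (Real.sqrt_pos.2 hm0).ne'
  have hc0 : (Real.sqrt (m : ℝ))⁻¹ ≠ 0 := inv_ne_zero hcs
  have hfc : Continuous (F n (n * m) (Real.sqrt (m : ℝ))⁻¹) :=
    MGF.lip_continuous (Real.sqrt_nonneg _) (F_lip n (n * m) _)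
  have hX : (fun ω => Tm n m (fun i x => B i t x ω)) =
      fun ω => F n (n * m) (Real.sqrt (m : ℝ))⁻¹ (fun v => Xi n m B (v, t) ω) := by
    funext ω
    rw [Tm_eq hc0]
    congr 1
    funext v
    simp only [xi, Xi, inv_inv]
    ring
  rw [hX]
  exact hfc.measurable.comp_aemeasurable
    (aemeasurable_pi_lambda _ fun v => (Xi_gauss hB n m).aemeasurable (v, t))

/-- Chernoff bound. -/
theorem chernoff {Δ : Ω → ℝ} (hΔ : AEMeasurable Δ P) {σ : ℝ} (hσ : 0 < σ)
    (h : ∀ lam : ℝ, ∫⁻ ω, ENNReal.ofReal (Real.exp (lam * Δ ω)) ∂P ≤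
      ENNReal.ofReal (Real.exp (lam ^ 2 * σ))) {s : ℝ} (hs : 0 < s) :
    P {ω | s ≤ Δ ω} ≤ ENNReal.ofReal (Real.exp (-(s ^ 2 / (4 * σ)))) := by
  set lam := s / (2 * σ) with hlam
  have hlam0 : 0 < lam := by positivity
  have h1 := mul_meas_ge_le_lintegral₀ (μ := P) (f := fun ω => ENNReal.ofReal (Real.exp (lam * Δ ω)))
    (Real.measurable_exp.comp_aemeasurable (hΔ.const_mul lam)).ennreal_ofReal
    (ENNReal.ofReal (Real.exp (lam * s)))
  have h2 : {ω | s ≤ Δ ω} ⊆ {ω | ENNReal.ofReal (Real.exp (lam * s)) ≤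
      ENNReal.ofReal (Real.exp (lam * Δ ω))} := by
    intro ω hω
    have hω' : s ≤ Δ ω := hω
    exact ENNReal.ofReal_le_ofReal (Real.exp_le_exp.2 (mul_le_mul_of_nonneg_left hω' hlam0.le))
  have h3 := h1.trans (h lam)
  have h4 : P {ω | s ≤ Δ ω} ≤ P {ω | ENNReal.ofReal (Real.exp (lam * s)) ≤
      ENNReal.ofReal (Real.exp (lam * Δ ω))} := measure_mono h2
  calc P {ω | s ≤ Δ ω} = ENNReal.ofReal (Real.exp (-(lam * s))) *
        (ENNReal.ofReal (Real.exp (lam * s)) * P {ω | s ≤ Δ ω}) := by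
        rw [← mul_assoc, ← ENNReal.ofReal_mul (Real.exp_pos _).le, ← Real.exp_add]
        simp
    _ ≤ ENNReal.ofReal (Real.exp (-(lam * s))) * ENNReal.ofReal (Real.exp (lam ^ 2 * σ)) := by
        gcongr
        exact (mul_le_mul' le_rfl h4).trans h3
    _ = ENNReal.ofReal (Real.exp (-(s ^ 2 / (4 * σ)))) := by
        rw [← ENNReal.ofReal_mul (Real.exp_pos _).le, ← Real.exp_add]
        congr 2
        rw [hlam]
        field_simp
        ring

theorem tail_m (hB : IsDynamicalBrownian P B) {n : ℕ} (hn : 1 ≤ n) {m : ℕ} (hm : 1 ≤ m) {t : ℝ≥0}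
    (ht : 0 < t) {s : ℝ} (hs : 0 < s) :
    P {ω | s ≤ |Tm n m (fun i x => B i t x ω) - Tm n m (fun i x => B i 0 x ω)|} ≤
      ENNReal.ofReal (2 * Real.exp (-(s ^ 2 / (4 * (n * t))))) := by
  have hn0 : (0 : ℝ) < n := by exact_mod_cast hn
  have ht0 : (0 : ℝ) < t := ht
  have hexp : 1 - Real.exp (-t) ≤ t := by
    have := Real.add_one_le_exp (-(t : ℝ))
    linarith
  have hmgf : ∀ lam : ℝ, ∫⁻ ω, ENNReal.ofReal (Real.exp (lam * (Tm n m (fun i x => B i t x ω) -
      Tm n m (fun i x => B i 0 x ω)))) ∂P ≤ ENNReal.ofReal (Real.exp (lam ^ 2 * (n * t))) := by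
    intro lam
    refine (mgf_inc hB n hm ht lam).trans (ENNReal.ofReal_le_ofReal (Real.exp_le_exp.2 ?_))
    rw [mul_assoc]
    refine mul_le_mul_of_nonneg_left ?_ (sq_nonneg lam)
    rw [mul_comm (n : ℝ)]
    exact mul_le_mul_of_nonneg_right hexp hn0.le
  have hmeas : AEMeasurable (fun ω => Tm n m (fun i x => B i t x ω) -
      Tm n m (fun i x => B i 0 x ω)) P := (Tm_aemeas hB n hm t).sub (Tm_aemeas hB n hm 0)
  have h1 := chernoff hmeas (σ := n * t) (by positivity) hmgf hs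
  have h2 := chernoff (Δ := fun ω => -(Tm n m (fun i x => B i t x ω) -
      Tm n m (fun i x => B i 0 x ω))) hmeas.neg (σ := n * t) (by positivity) (by
    intro lam
    have := hmgf (-lam)
    simp only [neg_mul, neg_sq] at this
    simpa only [mul_neg] using this) hs
  have hsub : {ω | s ≤ |Tm n m (fun i x => B i t x ω) - Tm n m (fun i x => B i 0 x ω)|} ⊆
      {ω | s ≤ Tm n m (fun i x => B i t x ω) - Tm n m (fun i x => B i 0 x ω)} ∪
      {ω | s ≤ -(Tm n m (fun i x => B i t x ω) - Tm n m (fun i x => B i 0 x ω))} := by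
    intro ω hω
    have hω' : s ≤ |Tm n m (fun i x => B i t x ω) - Tm n m (fun i x => B i 0 x ω)| := hω
    exact le_abs.1 hω'
  refine (measure_mono hsub).trans ((measure_union_le _ _).trans ((add_le_add h1 h2).trans ?_))
  rw [← ENNReal.ofReal_add (Real.exp_pos _).le (Real.exp_pos _).le]
  exact ENNReal.ofReal_le_ofReal (by linarith)

/-- Gaussian tail of the change of the last passage time. -/
theorem tail (hB : IsDynamicalBrownian P B) {n : ℕ} (hn : 1 ≤ n) {t : ℝ≥0} (ht : 0 < t) {α : ℝ}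
    (hα : 0 < α) :
    P {ω | α * Real.sqrt (n * t) ≤ |T n (fun i x => B i t x ω) - T n (fun i x => B i 0 x ω)|} ≤
      ENNReal.ofReal (2 * Real.exp (-(α ^ 2 / 4))) := by
  have hn0 : (0 : ℝ) < n := by exact_mod_cast hn
  have ht0 : (0 : ℝ) < t := ht
  have hnt : 0 < Real.sqrt (n * t) := Real.sqrt_pos.2 (by positivity)
  have key : ∀ β : ℝ, 0 < β → β < α →
      P {ω | α * Real.sqrt (n * t) ≤ |T n (fun i x => B i t x ω) - T n (fun i x => B i 0 x ω)|} ≤
        ENNReal.ofReal (2 * Real.exp (-(β ^ 2 / 4))) := by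
    intro β hβ hβα
    set Em : ℕ → Set Ω := fun m => {ω | β * Real.sqrt (n * t) ≤
      |Tm n (m + 1) (fun i x => B i t x ω) - Tm n (m + 1) (fun i x => B i 0 x ω)|} with hEm
    have hbound : ∀ m, P (Em m) ≤ ENNReal.ofReal (2 * Real.exp (-(β ^ 2 / 4))) := by
      intro m
      refine (tail_m hB hn (m := m + 1) (by omega) ht (s := β * Real.sqrt (n * t))
        (by positivity)).trans (le_of_eq ?_)
      rw [mul_pow, Real.sq_sqrt (by positivity)]
      congr 4
      field_simp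
    have hcont : ∀ᵐ ω ∂P, (∀ i, Continuous fun x => B i t x ω) ∧
        ∀ i, Continuous fun x => B i 0 x ω := by
      have h1 : ∀ᵐ ω ∂P, ∀ i, Continuous fun x => B i t x ω :=
        ae_all_iff.2 fun i => hB.continuous i t
      have h2 : ∀ᵐ ω ∂P, ∀ i, Continuous fun x => B i 0 x ω :=
        ae_all_iff.2 fun i => hB.continuous i 0
      filter_upwards [h1, h2] with ω a b using ⟨a, b⟩
    have hsub : {ω | α * Real.sqrt (n * t) ≤
        |T n (fun i x => B i t x ω) - T n (fun i x => B i 0 x ω)|} ≤ᵐ[P]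
        (⋃ M : ℕ, ⋂ m ≥ M, Em m : Set Ω) := by
      filter_upwards [hcont] with ω hω hmem
      have hmem' : α * Real.sqrt (n * t) ≤
        |T n (fun i x => B i t x ω) - T n (fun i x => B i 0 x ω)| := hmem
      have h1 := (Tm_tendsto n hω.1).sub (Tm_tendsto n hω.2)
      have h2 := (h1.abs).comp (tendsto_add_atTop_nat 1)
      have h3 : β * Real.sqrt (n * t) <
          |T n (fun i x => B i t x ω) - T n (fun i x => B i 0 x ω)| :=
        lt_of_lt_of_le (mul_lt_mul_of_pos_right hβα hnt) hmem'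
      obtain ⟨M, hM⟩ := eventually_atTop.1 (h2.eventually (eventually_gt_nhds h3))
      refine Set.mem_iUnion.2 ⟨M, Set.mem_iInter₂.2 fun m hm => ?_⟩
      exact (hM m hm).le
    refine (measure_mono_ae hsub).trans ?_
    have hmono : Monotone fun M : ℕ => (⋂ m ≥ M, Em m : Set Ω) := by
      intro M M' hMM ω hω
      rw [Set.mem_iInter₂] at hω ⊢
      exact fun m hm => hω m (le_trans hMM hm)
    rw [hmono.measure_iUnion]
    refine iSup_le fun M => ?_
    refine (measure_mono ?_).trans (hbound M)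
    exact Set.iInter₂_subset M le_rfl
  have hlim : Tendsto (fun k : ℕ => ENNReal.ofReal (2 * Real.exp (-((α * (1 - 1 / (k + 2 : ℝ))) ^ 2 / 4))))
      atTop (𝓝 (ENNReal.ofReal (2 * Real.exp (-(α ^ 2 / 4))))) := by
    have h1 : Tendsto (fun k : ℕ => 1 / (k + 2 : ℝ)) atTop (𝓝 0) := by
      have := tendsto_one_div_add_atTop_nhds_zero_nat (𝕜 := ℝ)
      have h2 := this.comp (tendsto_add_atTop_nat 1)
      refine h2.congr fun k => ?_
      simp only [Function.comp_apply]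
      push_cast
      ring_nf
    have h3 : Tendsto (fun k : ℕ => 2 * Real.exp (-((α * (1 - 1 / (k + 2 : ℝ))) ^ 2 / 4))) atTop
        (𝓝 (2 * Real.exp (-((α * (1 - 0)) ^ 2 / 4)))) := by
      have h4 : Continuous fun x : ℝ => 2 * Real.exp (-((α * (1 - x)) ^ 2 / 4)) := by fun_prop
      exact (h4.tendsto 0).comp h1
    have h5 := ENNReal.tendsto_ofReal h3
    simpa using h5
  refine ge_of_tendsto' hlim fun k => ?_
  have hk : (0 : ℝ) ≤ k := by positivity
  have h6 : 1 / (k + 2 : ℝ) < 1 := by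
    rw [div_lt_one (by positivity)]
    linarith
  have h7 : 0 < 1 / (k + 2 : ℝ) := by positivity
  refine key _ (mul_pos hα (by linarith)) ?_
  nlinarith

end Q292.DynLPP
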